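import Pool.Agent.Helper8.EH.Cnt
import Pool.Agent.Helper8.EH.Tw

/-!
# Even-hole-free, `K₅`-free graphs without a fixed 2-forest: treewidth grows like the logarithm of the order
-/

set_option autoImplicit false

namespace Pool.Agent.Results.MP_391dbe_co.LogTreewidth

open Pool.Agent.Helper32.EH

/-- `B` (bags) is a tree decomposition of `G` over the tree `T`: every vertex and both ends of every
edge of `G` are in some bag, and the nodes whose bags contain a given vertex induce a connected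
subgraph of `T`. -/
structure IsTreeDecomposition {V ι : Type} (G : SimpleGraph V) (T : SimpleGraph ι)
    (B : ι → Finset V) : Prop where
  tree : T.IsTree
  vertex : ∀ v, ∃ t, v ∈ B t
  edge : ∀ u v, G.Adj u v → ∃ t, u ∈ B t ∧ v ∈ B t
  conn : ∀ v, (T.induce {t | v ∈ B t}).Connected

/-- The treewidth: the least `w` such that some tree decomposition over a finite tree has all bags
of size at most `w + 1`. -/
noncomputable def treewidth {V : Type} (G : SimpleGraph V) : ℕ :=
  sInf {w | ∃ (k : ℕ) (T : SimpleGraph (Fin k)) (B : Fin k → Finset V),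
    IsTreeDecomposition G T B ∧ ∀ t, (B t).card ≤ w + 1}

/-- `G` has a complete graph on `k` vertices as a minor: there are `k` pairwise disjoint connected
vertex sets, any two of which are joined by an edge. -/
def HasCompleteMinor {V : Type} (G : SimpleGraph V) (k : ℕ) : Prop :=
  ∃ X : Fin k → Set V, (∀ i, (G.induce (X i)).Connected) ∧
    ∀ i j, i ≠ j → Disjoint (X i) (X j) ∧ ∃ x ∈ X i, ∃ y ∈ X j, G.Adj x y

/-- `G` has no induced cycle of length at least 4 satisfying `p`. -/
def NoHole {V : Type} (G : SimpleGraph V) (p : ℕ → Prop) : Prop :=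
  ∀ n : ℕ, 4 ≤ n → p n → IsEmpty (SimpleGraph.cycleGraph n ↪g G)

theorem trivial_dec {V : Type} [Fintype V] (G : SimpleGraph V) :
    IsTreeDecomposition G (⊥ : SimpleGraph (Fin 1)) (fun _ => Finset.univ) where
  tree := by
    constructor
    · exact ⟨fun x y => by rw [Subsingleton.elim x y]⟩
    · exact SimpleGraph.isAcyclic_bot
  vertex := fun v => ⟨0, Finset.mem_univ v⟩
  edge := fun u v _ => ⟨0, Finset.mem_univ u, Finset.mem_univ v⟩
  conn := fun v => by
    have : Nonempty ({t | v ∈ (fun _ : Fin 1 => (Finset.univ : Finset V)) t} : Set (Fin 1)) :=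
      ⟨⟨0, Finset.mem_univ v⟩⟩
    exact ⟨fun x y => by rw [Subsingleton.elim x y]⟩

/-- A graph with a complete minor on `k + 1` vertices has treewidth at least `k`. -/
theorem le_treewidth {V : Type} [Finite V] (G : SimpleGraph V) (k : ℕ)
    (h : HasCompleteMinor G (k + 1)) : k ≤ treewidth G := by
  have := Fintype.ofFinite V
  obtain ⟨X, hX, hd⟩ := h
  have hne : {w | ∃ (k : ℕ) (T : SimpleGraph (Fin k)) (B : Fin k → Finset V),
      IsTreeDecomposition G T B ∧ ∀ t, (B t).card ≤ w + 1}.Nonempty :=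
    ⟨Fintype.card V, 1, ⊥, fun _ => Finset.univ, trivial_dec G, fun _ => by
      rw [Finset.card_univ]
      exact Nat.le_succ _⟩
  obtain ⟨l, T, B, hB, hw⟩ := Nat.sInf_mem hne
  obtain ⟨t, ht⟩ := Pool.Agent.Helper8.EH.exists_big_bag hB.tree B hB.vertex hB.edge
    (fun v => (hB.conn v).preconnected) k X hX (fun i j hij => (hd i j hij).1)
    (fun i j hij => (hd i j hij).2)
  have h2 := hw t
  show k ≤ sInf _
  omega

theorem minor_iso {V W : Type} {G : SimpleGraph V} {G' : SimpleGraph W} (e : G ≃g G') {k : ℕ}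
    (h : HasCompleteMinor G k) : HasCompleteMinor G' k := by
  obtain ⟨X, hX, hd⟩ := h
  refine ⟨fun i => e '' X i, fun i => ?_, fun i j hij => ⟨?_, ?_⟩⟩
  · let f : G.induce (X i) →g G'.induce (e '' X i) :=
      ⟨fun x => ⟨e x.1, x.1, x.2, rfl⟩, fun {a b} hab => e.map_adj_iff.2 hab⟩
    refine (hX i).map f ?_
    rintro ⟨y, x, hx, rfl⟩
    exact ⟨⟨x, hx⟩, rfl⟩
  · exact (Set.disjoint_image_iff e.injective).2 (hd i j hij).1
  · obtain ⟨x, hx, y, hy, hxy⟩ := (hd i j hij).2
    exact ⟨e x, ⟨x, hx, rfl⟩, e y, ⟨y, hy, rfl⟩, e.map_adj_iff.2 hxy⟩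

theorem box_minor (m : ℕ) : HasCompleteMinor (box m) (m + 1) := by
  refine ⟨fun l => {x : {x : P // inBox m x} | x.1.1 = (l : ℕ)},
    fun l => box_conn m (box m) le_rfl l, ?_⟩
  have key : ∀ i j : Fin (m + 1), i < j →
      ∃ x : {x : P // inBox m x}, x.1.1 = (i : ℕ) ∧ ∃ y : {x : P // inBox m x},
        y.1.1 = (j : ℕ) ∧ (box m).Adj x y := by
    intro i j hij
    have hx : inBox m ((i : ℕ), (0 : ℤ)) :=
      ⟨Nat.lt_succ_iff.1 i.2, le_rfl, by positivity⟩
    obtain ⟨y, hy, ha⟩ := box_touch m i j hij (Nat.lt_succ_iff.1 j.2) ⟨_, hx⟩ rfl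
    exact ⟨⟨_, hx⟩, rfl, y, hy, ha⟩
  intro i j hij
  constructor
  · rw [Set.disjoint_left]
    intro x hx hy
    simp only [Set.mem_setOf_eq] at hx hy
    exact hij (Fin.ext (hx.symm.trans hy))
  · rcases lt_or_gt_of_ne hij with h | h
    · obtain ⟨x, hx, y, hy, ha⟩ := key i j h
      exact ⟨x, hx, y, hy, ha⟩
    · obtain ⟨x, hx, y, hy, ha⟩ := key j i h
      exact ⟨y, hy, x, hx, ha.symm⟩

/-- There is a 2-forest `H` (314 vertices) such that for every `m` there is an even-hole-free,
`H`-free, `K₅`-free graph with `(37^(m+1) - 1)/36` vertices which has a `K_{m+1}` minor and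
treewidth at least `m`. -/
theorem result : ∃ H : SimpleGraph (Fin 314), NoHole H (fun _ => True) ∧ H.CliqueFree 4 ∧
    ∀ m n : ℕ, 36 * n + 1 = 37 ^ (m + 1) → ∃ G : SimpleGraph (Fin n),
      NoHole G Even ∧ IsEmpty (H ↪g G) ∧ G.CliqueFree 5 ∧
      HasCompleteMinor G (m + 1) ∧ m ≤ treewidth G := by
  have hfin := H4_finite
  have := Fintype.ofFinite ((((Bool ⊕ H0.Dart) ⊕ (dbl H0).Dart) ⊕ (dbl (dbl H0)).Dart) ⊕
      (dbl (dbl (dbl H0))).Dart)
  have hcard := Pool.Agent.Helper8.EH.card_H4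
  rw [Nat.card_eq_fintype_card] at hcard
  have e : H4 ≃g H4.overFin hcard := H4.overFinIso hcard
  refine ⟨H4.overFin hcard, fun n hn _ => ⟨fun f => ?_⟩, ?_, fun m n hmn => ?_⟩
  · exact (H4_chordal n hn).false (e.symm.toEmbedding.comp f)
  · exact H4_cliqueFree.comap ⟨e.symm.toEmbedding.toCopy⟩
  · have hb := box_finite m
    have := Fintype.ofFinite {x : P // inBox m x}
    have hc := Pool.Agent.Helper8.EH.card_box m n hmn
    rw [Nat.card_eq_fintype_card] at hc
    have e' : box m ≃g (box m).overFin hc := (box m).overFinIso hc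
    have hmin := minor_iso e' (box_minor m)
    refine ⟨(box m).overFin hc, fun k hk he => ⟨fun f => ?_⟩, ⟨fun f => ?_⟩, ?_, hmin,
      le_treewidth _ m hmin⟩
    · exact (box_even m k hk he).false (e'.symm.toEmbedding.comp f)
    · exact (box_H4 m).false ((e'.symm.toEmbedding.comp f).comp e.toEmbedding)
    · exact (box_K5 m).comap ⟨e'.symm.toEmbedding.toCopy⟩

end Pool.Agent.Results.MP_391dbe_co.LogTreewidth
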